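import Pool.Agent.H37.CTT.Stmts
import Pool.Agent.H62.CTO.PFN

/-!
Board `ctt`, row SFI (helper80): the exact value for quotients of `Sp_4(q)`
-/

set_option autoImplicit false

namespace Pool.CND

open Matrix

namespace SFI80

variable {F : Type} [Field F]

/-- `1 + E_03` -/
def ga (F : Type) [Field F] : Matrix.SpecialLinearGroup (Fin 4) F :=
  ⟨!![1, 0, 0, 1; 0, 1, 0, 0; 0, 0, 1, 0; 0, 0, 0, 1], by
    simp [Matrix.det_succ_row_zero, Fin.sum_univ_succ, Fin.succAbove]⟩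

/-- `1 + E_12` -/
def gb (F : Type) [Field F] : Matrix.SpecialLinearGroup (Fin 4) F :=
  ⟨!![1, 0, 0, 0; 0, 1, 1, 0; 0, 0, 1, 0; 0, 0, 0, 1], by
    simp [Matrix.det_succ_row_zero, Fin.sum_univ_succ, Fin.succAbove]⟩

/-- `1 + E_21` -/
def gc (F : Type) [Field F] : Matrix.SpecialLinearGroup (Fin 4) F :=
  ⟨!![1, 0, 0, 0; 0, 1, 0, 0; 0, 1, 1, 0; 0, 0, 0, 1], by
    simp [Matrix.det_succ_row_zero, Fin.sum_univ_succ, Fin.succAbove]⟩

/-- `1 + E_30` -/
def gd (F : Type) [Field F] : Matrix.SpecialLinearGroup (Fin 4) F :=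
  ⟨!![1, 0, 0, 0; 0, 1, 0, 0; 0, 0, 1, 0; 1, 0, 0, 1], by
    simp [Matrix.det_succ_row_zero, Fin.sum_univ_succ, Fin.succAbove]⟩

theorem ga_mem : ga F ∈ Sp4 F := by
  show (ga F).1ᵀ * J4s F * (ga F).1 = J4s F
  ext i j
  fin_cases i <;> fin_cases j <;>
    simp [ga, J4s, Matrix.mul_apply, Fin.sum_univ_succ]

theorem gb_mem : gb F ∈ Sp4 F := by
  show (gb F).1ᵀ * J4s F * (gb F).1 = J4s F
  ext i j
  fin_cases i <;> fin_cases j <;>
    simp [gb, J4s, Matrix.mul_apply, Fin.sum_univ_succ]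

theorem gc_mem : gc F ∈ Sp4 F := by
  show (gc F).1ᵀ * J4s F * (gc F).1 = J4s F
  ext i j
  fin_cases i <;> fin_cases j <;>
    simp [gc, J4s, Matrix.mul_apply, Fin.sum_univ_succ]

theorem gd_mem : gd F ∈ Sp4 F := by
  show (gd F).1ᵀ * J4s F * (gd F).1 = J4s F
  ext i j
  fin_cases i <;> fin_cases j <;>
    simp [gd, J4s, Matrix.mul_apply, Fin.sum_univ_succ]

/-- a matrix commuting with the four elements is diagonal -/
theorem diag (z : Matrix (Fin 4) (Fin 4) F) (ha : z * (ga F).1 = (ga F).1 * z)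
    (hb : z * (gb F).1 = (gb F).1 * z) (hc : z * (gc F).1 = (gc F).1 * z)
    (hd : z * (gd F).1 = (gd F).1 * z) : z = Matrix.diagonal fun i => z i i := by
  have a1 := congrFun (congrFun ha 1) 3
  have a2 := congrFun (congrFun ha 2) 3
  have a3 := congrFun (congrFun ha 3) 3
  have b0 := congrFun (congrFun hb 0) 2
  have b2 := congrFun (congrFun hb 2) 2
  have b3 := congrFun (congrFun hb 3) 2
  have c0 := congrFun (congrFun hc 0) 1
  have c1 := congrFun (congrFun hc 1) 1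
  have c3 := congrFun (congrFun hc 3) 1
  have d0 := congrFun (congrFun hd 0) 0
  have d1 := congrFun (congrFun hd 1) 0
  have d2 := congrFun (congrFun hd 2) 0
  simp [ga, gb, gc, gd, Matrix.mul_apply, Fin.sum_univ_succ] at a1 a2 a3 b0 b2 b3 c0 c1 c3 d0 d1 d2
  ext i j
  fin_cases i <;> fin_cases j <;> simp_all [Matrix.diagonal]

theorem center_p (p : ℕ) (F : Type) [Field F] [Finite F] [CharP F p] (hp : p.Prime) :
    ¬ p ∣ Nat.card (Subgroup.center (Sp4 F)) := by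
  have := Fact.mk hp
  intro h
  obtain ⟨g, hg⟩ := exists_prime_orderOf_dvd_card' p h
  have hcm : ∀ x : Sp4 F, x * g.1 = g.1 * x := fun x => Subgroup.mem_center_iff.1 g.2 x
  have key : ∀ x : Matrix.SpecialLinearGroup (Fin 4) F, x ∈ Sp4 F →
      g.1.1.1 * x.1 = x.1 * g.1.1.1 := by
    intro x hx
    have h1 := hcm ⟨x, hx⟩
    have h2 := congrArg (fun y : Sp4 F => y.1.1) h1
    exact h2.symm
  have hdg := diag g.1.1.1 (key _ ga_mem) (key _ gb_mem) (key _ gc_mem) (key _ gd_mem)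
  have hgp : g ^ p = 1 := by rw [← hg, pow_orderOf_eq_one]
  have h3 : g.1.1.1 ^ p = 1 := by
    have h4 := congrArg (fun y : Subgroup.center (Sp4 F) => y.1.1.1) hgp
    simpa using h4
  rw [hdg, Matrix.diagonal_pow] at h3
  have h5 : ∀ i, g.1.1.1 i i = 1 := by
    intro i
    have h6 := congrFun (congrFun h3 i) i
    rw [Matrix.diagonal_apply_eq, Matrix.one_apply_eq] at h6
    have h7 : (g.1.1.1 i i - 1) ^ p = 0 := by
      rw [sub_pow_char, one_pow]
      rw [sub_eq_zero]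
      exact h6
    exact sub_eq_zero.1 (pow_eq_zero_iff hp.ne_zero |>.1 h7)
  have h8 : g.1.1.1 = 1 := by
    rw [hdg]
    ext i j
    by_cases hij : i = j
    · subst hij
      rw [Matrix.diagonal_apply_eq, Matrix.one_apply_eq, h5]
    · rw [Matrix.diagonal_apply_ne _ hij, Matrix.one_apply_ne hij]
  have h9 : g = 1 := Subtype.ext (Subtype.ext (Subtype.ext h8))
  rw [h9, orderOf_one] at hg
  exact hp.one_lt.ne hg

end SFI80

theorem sfi_thm (h11 : S_SC11) (h14 : S_SC14) (hA : S_ALL) (hN : S_NQD) (hU : S_SU3) :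
    S_SFI := by
  intro p k F _ _ _ f q hp hp2 hk hf hq hF C _ hC
  have hfin : Finite F :=
    Nat.finite_of_card_ne_zero (by rw [hF, hq]; exact pow_ne_zero _ hp.ne_zero)
  have hch : CharP F p := pfn_charF p F f q hp hf hq hF
  obtain ⟨hAl⟩ := pfn_alg p k F hp hk hch hfin
  have hq3 : 3 ≤ q := by
    have h1 : 3 ≤ p := by
      have := hp.two_le
      omega
    rw [hq]
    calc 3 ≤ p := h1
      _ = p ^ 1 := (pow_one p).symm
      _ ≤ p ^ f := Nat.pow_le_pow_right hp.pos hf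
  have hqo : Odd q := by
    rw [hq]
    exact (hp.odd_of_ne_two hp2).pow
  obtain ⟨n, hn⟩ := hqo
  -- q = 2 n + 1, q ^ 2 - 1 = 2 m, m = 2 n (n + 1)
  obtain ⟨m, hm⟩ : ∃ m, m = 2 * (n * (n + 1)) := ⟨_, rfl⟩
  have hq2 : q ^ 2 = 2 * m + 1 := by
    rw [hn, hm]
    ring
  have hm2 : (q ^ 2 - 1) / 2 = m := by
    rw [hq2]
    omega
  have hm1 : 1 ≤ m := by
    have : 1 ≤ n := by omega
    rw [hm]
    nlinarith
  have hCp : ¬ p ∣ Nat.card C := fun h =>
    SFI80.center_p p F hp (h.trans (Subgroup.card_dvd_of_le hC))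
  obtain ⟨N, hNd⟩ : ∃ N, N = NG k (Sp4 F) := ⟨_, rfl⟩
  have hqQ : (q : ℚ) ^ 2 = 2 * m + 1 := by exact_mod_cast hq2
  -- m divides N
  have a1 : m ∣ N := by
    obtain ⟨z, hz⟩ := hA p k (Sp4 F) _ hp hk (h11 p k F f q hp hp2 hk hf hq hF)
    rw [← hNd, hqQ] at hz
    have hne : (2 * (m : ℚ) + 1 - 1) ≠ 0 := by
      have : (1 : ℚ) ≤ m := by exact_mod_cast hm1
      linarith
    rw [← mul_div_assoc, div_eq_iff hne] at hz
    have hz' : (N : ℤ) * (2 * m + 1 + 1) = z * (2 * m + 1 - 1) := by exact_mod_cast hz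
    have hd : (m : ℤ) ∣ (N : ℤ) := by
      refine ⟨z - N, ?_⟩
      have h2 : (2 : ℤ) * (N : ℤ) = 2 * ((m : ℤ) * (z - N)) := by linear_combination hz'
      exact mul_left_cancel₀ two_ne_zero h2
    exact_mod_cast hd
  have a2 : q ∣ N := by
    obtain ⟨z, hz⟩ := hA p k (Sp4 F) _ hp hk (h14 p k F f q hp hp2 hk hf hq hF)
    rw [← hNd] at hz
    have hne : ((q : ℚ) * ((q : ℚ) - 1)) ≠ 0 := by
      have : (3 : ℚ) ≤ q := by exact_mod_cast hq3
      exact mul_ne_zero (by linarith) (by linarith)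
    rw [← mul_div_assoc, div_eq_iff hne] at hz
    have hz' : (N : ℤ) * ((q : ℤ) ^ 2 + 1) = z * ((q : ℤ) * ((q : ℤ) - 1)) := by
      exact_mod_cast hz
    have hd : (q : ℤ) ∣ (N : ℤ) := by
      refine ⟨z * ((q : ℤ) - 1) - N * q, ?_⟩
      linear_combination hz'
    exact_mod_cast hd
  have hcop : Nat.Coprime q m := by
    have h1 : Nat.Coprime (q ^ 2) (2 * m) := by
      rw [hq2]
      simp
    exact Nat.Coprime.coprime_dvd_left (dvd_pow_self q (by omega))
      (Nat.Coprime.coprime_dvd_right (Dvd.intro_left 2 rfl) h1)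
  have a3 : q * m ∣ N := Nat.Coprime.mul_dvd_of_dvd_of_dvd hcop a2 a1
  have a4 : N ∣ NG k (Sp4 F ⧸ C) := by
    rw [hNd]
    exact hN p k (Sp4 F) C hp hk hCp
  have a5 := (hU p f q k F C hp hp2 hf hq hF hC).2
  rw [hm2] at a5 ⊢
  exact Nat.dvd_antisymm a5 (a3.trans a4)

end Pool.CND
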